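import Mathlib
import Pool.Agent.H59.SEP.Defs
import Pool.Agent.H59.SEP.Assemble

/-!
Q1 of the problem, affirmatively: the `h*`-polynomials of the symmetric edge polytopes of `G` and
of `G` minus an edge `ij` (with `G` minus `ij` connected, in particular for every 2-connected `G`)
differ by `2t ∑ q_s(t)`, where each `q_s` has nonnegative coefficients and `2t q_s(t)` is
palindromic with center `d/2`.
-/

set_option autoImplicit false

open scoped Pointwise Polynomial
open Pool.Agent.H59.SEP

namespace Pool.Agent.Results.MP_ee9925_co.Palindromic

/-- Let `ij` be an edge of the finite graph `G` such that `G` minus `ij` is connected (which holds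
for every edge of a 2-connected graph), `d = |V| - 1`, and let `K` be a triangulation of the union
of the facets of `P_{G minus ij}` visible from `e_i - e_j` into unimodular simplices with `d`
vertices.  Let `h_1 > ... > h_k` be the distinct lattice distances of `e_i - e_j` from the
hyperplanes of the facets of `K`.  Then the identity, nonnegativity and palindromicity of Q1
hold.  The first clause says that the lattice distance is well defined. -/
theorem result {V : Type*} [Fintype V] [DecidableEq V] (G : SimpleGraph V) (i j : V)
    (hij : G.Adj i j) (hconn : (G.deleteEdges {s(i, j)}).Connected)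
    (K : Geometry.SimplicialComplex ℝ (V → ℝ))
    (hK : IsUnimodularTriangulation K
      (⋃₀ {F | IsVisibleFacet (polytope (G.deleteEdges {s(i, j)})) (ev i j) F})
      (Fintype.card V - 1))
    (k : ℕ) (h : ℕ → ℕ) (hanti : StrictAntiOn h (Set.Icc 1 k))
    (hval : h '' Set.Icc 1 k = height (ez i j) '' K.facets) :
    (∀ s ∈ K.facets, ∀ n : ℕ, IsLatticeDistance s (ez i j) n ↔ n = height (ez i j) s) ∧
    hStar (polytope G) (Fintype.card V - 1) -
        hStar (polytope (G.deleteEdges {s(i, j)})) (Fintype.card V - 1) =
      ((2 * Polynomial.X * ∑ s ∈ Finset.Icc 1 k, qPoly K (ez i j) (Fintype.card V - 1) h s :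
        ℤ[X]) : PowerSeries ℤ) ∧
    ∀ s ∈ Finset.Icc 1 k,
      (∀ l, 0 ≤ (qPoly K (ez i j) (Fintype.card V - 1) h s).coeff l) ∧
      IsPalindromic (Fintype.card V - 1)
        (2 * Polynomial.X * qPoly K (ez i j) (Fintype.card V - 1) h s) :=
  main_theorem G i j hij hconn K hK k h hanti hval

end Pool.Agent.Results.MP_ee9925_co.Palindromic
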